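import Mathlib
import Pool.Agent.V7H55.FP.Defs6
import Pool.Agent.V7H55.ET.Clo

/-!
# Free products for `p = 2`: the subgroup generated by closed subgroups
-/

set_option autoImplicit false

open IntermediateField

namespace Pool.Agent.V7H34.FP

open Pool.Agent.V7H55.FP Pool.Agent.V7H55.ET
open Pool.Agent.Y469.EP (Tw)

section Top

variable {F K : Type} [Field F] [Field K] [Algebra F K]

/-- an intermediate field of finite degree is contained in an intermediate field which contains a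
generator -/
lemma le_of_prim [IsGalois F K] (L : IntermediateField F K) [FiniteDimensional F L] :
    ∃ α : K, α ∈ L ∧ ∀ M : IntermediateField F K, α ∈ M → L ≤ M := by
  obtain ⟨α, hα⟩ := Field.exists_primitive_element F L
  refine ⟨(α : K), α.2, fun M hαM x hx => ?_⟩
  have h2 : (⟨x, hx⟩ : L) ∈ (⊤ : IntermediateField F L) := trivial
  rw [← hα] at h2
  have h3 : F⟮α⟯ ≤ M.comap L.val := by
    rw [IntermediateField.adjoin_simple_le_iff]
    exact hαM
  exact h3 h2

lemma pro2_gen [IsGalois F K] (hL : ∀ x : K, ∃ L : IntermediateField F K, x ∈ L ∧ Tw 2 L) :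
    Pro2 (K ≃ₐ[F] K) := by
  intro V hV hVo
  have h1 : (V : Set (K ≃ₐ[F] K)) ∈ nhds 1 := hVo.mem_nhds V.one_mem
  rw [krullTopology_mem_nhds_one_iff] at h1
  obtain ⟨L, hLfd, hLV⟩ := h1
  have := hLfd
  obtain ⟨α, -, hα⟩ := le_of_prim L
  obtain ⟨M, hαM, hMfd, hMgal, k, hk⟩ := hL α
  have := hMfd
  have := hMgal
  have hLM : L ≤ M := hα M hαM
  have h3 : M.fixingSubgroup ≤ V := fun g hg => hLV (IntermediateField.fixingSubgroup_le hLM hg)
  have h4 := Subgroup.index_dvd_of_le h3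
  rw [← Pool.Agent.Y469.EP.finrank_eq_index, hk] at h4
  obtain ⟨j, -, hj⟩ := (Nat.dvd_prime_pow Nat.prime_two).1 h4
  exact ⟨j, hj⟩

/-- the restriction of scalars is continuous -/
lemma cont_restrict [IsGalois F K] (E : IntermediateField F K) :
    Continuous (AlgEquiv.restrictScalarsHom F : (K ≃ₐ[E] K) →* (K ≃ₐ[F] K)) := by
  apply continuous_of_continuousAt_one
  rw [ContinuousAt, map_one]
  intro U hU
  obtain ⟨L, hL, hLU⟩ := (krullTopology_mem_nhds_one_iff F K U).1 hU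
  have := hL
  obtain ⟨α, hαL, hα⟩ := le_of_prim L
  rw [Filter.mem_map, krullTopology_mem_nhds_one_iff]
  have hint : IsIntegral E α := Algebra.IsIntegral.isIntegral α
  refine ⟨E⟮α⟯, IntermediateField.adjoin.finiteDimensional hint, ?_⟩
  intro g hg
  apply hLU
  have hg1 : g α = α := by
    have h1 : g ∈ (E⟮α⟯).fixingSubgroup := hg
    rw [IntermediateField.mem_fixingSubgroup_iff] at h1
    exact h1 α (IntermediateField.mem_adjoin_simple_self E α)
  show AlgEquiv.restrictScalarsHom F g ∈ L.fixingSubgroup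
  have h2 : L ≤ IntermediateField.fixedField (Subgroup.zpowers (AlgEquiv.restrictScalarsHom F g)) := by
    apply hα
    rintro ⟨s, hs⟩
    show s α = α
    obtain ⟨m, rfl⟩ := Subgroup.mem_zpowers_iff.1 hs
    have h3 : (AlgEquiv.restrictScalarsHom F g) • α = α := hg1
    have h4 : AlgEquiv.restrictScalarsHom F g ∈ MulAction.stabilizer (K ≃ₐ[F] K) α := h3
    have h5 := Subgroup.zpow_mem _ h4 m
    exact h5
  rw [IntermediateField.mem_fixingSubgroup_iff]
  intro x hx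
  exact (h2 hx) ⟨_, Subgroup.mem_zpowers _⟩

end Top

theorem sub_gen (hBA : S_BA) (hFR : S_FR) {F K : Type} [Field F] [Field K] [Algebra F K]
    [IsGalois F K] (h2 : (2 : K) ≠ 0) (hsq : ∀ x : K, ∃ y, y ^ 2 = x)
    (hL : ∀ x : K, ∃ L : IntermediateField F K, x ∈ L ∧ Tw 2 L)
    {n : ℕ} (D : Fin n → Subgroup (K ≃ₐ[F] K)) (hDc : ∀ i, IsClosed (D i : Set (K ≃ₐ[F] K)))
    (H : Subgroup (K ≃ₐ[F] K)) (hHc : IsClosed (H : Set (K ≃ₐ[F] K))) (hle : ∀ i, D i ≤ H)
    (hy : ∀ y : K, (∀ i, Fx (D i) y) → Fx H y)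
    (hnorm : ∀ x y : K, Fx H x → Fx H y → x ≠ 0 → y ≠ 0 →
      (∀ i, ∃ r t : K, Fx (D i) r ∧ Fx (D i) t ∧ y = r ^ 2 - x * t ^ 2) →
      ∃ r t : K, Fx H r ∧ Fx H t ∧ y = r ^ 2 - x * t ^ 2)
    (happ : ∀ z : Fin n → K, (∀ i, Fx (D i) (z i) ∧ z i ≠ 0) → ∃ z0 : K, Fx H z0 ∧
      z0 ≠ 0 ∧ ∀ i, ∃ r : K, Fx (D i) r ∧ r ≠ 0 ∧ z i = z0 * r ^ 2)
    {P : Type} [Group P] [Finite P] (hP : ∃ k : ℕ, Nat.card P = 2 ^ k)
    (φ : (i : Fin n) → (D i →* P)) (hφ : ∀ i, IsOpen ((φ i).ker : Set (D i))) :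
    ∃! ψ : H →* P, IsOpen (ψ.ker : Set H) ∧
      ∀ i, ∀ x : D i, ψ (Subgroup.inclusion (hle i) x) = φ i x := by
  set E : IntermediateField F K := IntermediateField.fixedField H with hE
  set ι : (K ≃ₐ[E] K) →* (K ≃ₐ[F] K) := AlgEquiv.restrictScalarsHom F with hι
  have hιc : Continuous ι := cont_restrict E
  have hfix : E.fixingSubgroup = H := InfiniteGalois.fixingSubgroup_fixedField ⟨H, hHc⟩
  have hιH : ∀ g, ι g ∈ H := by
    intro g
    have h1 : ι g ∈ E.fixingSubgroup := by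
      rw [IntermediateField.mem_fixingSubgroup_iff]
      intro x hx
      exact g.commutes ⟨x, hx⟩
    rwa [hfix] at h1
  have hιs : ∀ h ∈ H, ∃ g, ι g = h := by
    intro h hh
    have h1 : h ∈ E.fixingSubgroup := by rwa [hfix]
    exact ⟨IntermediateField.fixingSubgroupEquiv E ⟨h, h1⟩, AlgEquiv.ext fun x => rfl⟩
  have hιi : Function.Injective ι := AlgEquiv.restrictScalarsHom_injective F
  let e : (K ≃ₐ[E] K) →* H := ι.codRestrict H hιH
  have he : Function.Bijective e := by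
    constructor
    · intro a b hab
      exact hιi (congrArg Subtype.val hab)
    · rintro ⟨h, hh⟩
      obtain ⟨g, hg⟩ := hιs h hh
      exact ⟨g, Subtype.ext hg⟩
  let e' : (K ≃ₐ[E] K) ≃* H := MulEquiv.ofBijective e he
  have hec : Continuous e'.toEquiv := Continuous.subtype_mk hιc _
  have hopen : ∀ A : Set H, IsOpen (e ⁻¹' A) ↔ IsOpen A := by
    intro A
    exact (hec.homeoOfEquivCompactToT2).isOpen_preimage
  -- fixed elements
  have hFxH : ∀ x : K, Fx (⊤ : Subgroup (K ≃ₐ[E] K)) x ↔ Fx H x := by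
    intro x
    constructor
    · intro h u hu
      obtain ⟨g, rfl⟩ := hιs u hu
      exact h g (Subgroup.mem_top g)
    · intro h g _
      exact h (ι g) (hιH g)
  have hFxD : ∀ (i : Fin n) (x : K), Fx ((D i).comap ι) x ↔ Fx (D i) x := by
    intro i x
    constructor
    · intro h u hu
      obtain ⟨g, rfl⟩ := hιs u (hle i hu)
      exact h g hu
    · intro h g hg
      exact h (ι g) hg
  have hAx : Ax K (Σ i : Fin n, (K ≃ₐ[E] K) ⧸ (D i).comap ι) (⊤ : Subgroup (K ≃ₐ[E] K)) := by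
    apply hBA
    · intro x y hx hy' hx0 hy0 h
      rw [hFxH] at hx hy'
      obtain ⟨r, t, hr, ht, hrt⟩ := hnorm x y hx hy' hx0 hy0 fun i => by
        obtain ⟨r, t, hr, ht, hrt⟩ := h i
        exact ⟨r, t, (hFxD i r).1 hr, (hFxD i t).1 ht, hrt⟩
      exact ⟨r, t, (hFxH r).2 hr, (hFxH t).2 ht, hrt⟩
    · intro z hz
      obtain ⟨z0, h1, h3, h4⟩ := happ z fun i => ⟨(hFxD i _).1 (hz i).1, (hz i).2⟩
      refine ⟨z0, (hFxH z0).2 h1, h3, fun i => ?_⟩
      obtain ⟨r, hr, hr0, hrz⟩ := h4 i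
      exact ⟨r, (hFxD i r).2 hr, hr0, hrz⟩
  have hpro : Pro2 (K ≃ₐ[E] K) := pro2_gen fun x => comp Nat.prime_two hL E x
  -- the homomorphisms on the preimages
  let j : (i : Fin n) → ((D i).comap ι →* D i) := fun i => ι.subgroupComap (D i)
  have hjc : ∀ i, Continuous (j i) := fun i =>
    Continuous.subtype_mk (hιc.comp continuous_subtype_val) _
  have hker : ∀ i, IsOpen ((((φ i).comp (j i)).ker : Subgroup ((D i).comap ι)) :
      Set ((D i).comap ι)) := by
    intro i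
    have h1 := (hφ i).preimage (hjc i)
    exact h1
  obtain ⟨ψ', ⟨hψo, hψe⟩, hu⟩ := hFR E K h2 hsq hpro n (fun i => (D i).comap ι)
    (fun i => (hDc i).preimage hιc) hAx
    (fun y _ h => (hFxH y).2 (hy y fun i => (hFxD i y).1 (h i))) P hP
    (fun i => (φ i).comp (j i)) hker
  have hes : ∀ h : H, e (e'.symm h) = h := fun h => e'.apply_symm_apply h
  refine ⟨ψ'.comp e'.symm.toMonoidHom, ⟨?_, ?_⟩, ?_⟩
  · rw [← hopen]
    have h1 : e ⁻¹' ((ψ'.comp e'.symm.toMonoidHom).ker : Set H) = (ψ'.ker : Set (K ≃ₐ[E] K)) := by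
      ext g
      show ψ' (e'.symm (e' g)) = 1 ↔ ψ' g = 1
      rw [e'.symm_apply_apply]
    rw [h1]
    exact hψo
  · intro i x
    show ψ' (e'.symm (Subgroup.inclusion (hle i) x)) = φ i x
    set g := e'.symm (Subgroup.inclusion (hle i) x) with hg
    have h1 : e g = Subgroup.inclusion (hle i) x := hes _
    have h3 : ι g = (x : K ≃ₐ[F] K) := congrArg Subtype.val h1
    have h4 : g ∈ (D i).comap ι := by
      rw [Subgroup.mem_comap, h3]
      exact x.2
    have h5 := hψe i ⟨g, h4⟩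
    rw [h5]
    show φ i (j i ⟨g, h4⟩) = φ i x
    congr 1
    exact Subtype.ext h3
  · rintro ψ₁ ⟨ho, hx⟩
    have h1 : ψ₁.comp e = ψ' := by
      apply hu
      refine ⟨?_, ?_⟩
      · have h3 := (hopen (ψ₁.ker : Set H)).2 ho
        exact h3
      · intro i x
        exact hx i (j i x)
    apply MonoidHom.ext
    intro h
    show ψ₁ h = ψ' (e'.symm h)
    rw [← h1]
    show ψ₁ h = ψ₁ (e (e'.symm h))
    rw [hes]

theorem t_SUB' (hBA : S_BA) (hFR : S_FR) : S_SUB := by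
  intro F _ K _ h2 hsq hL n D hDc H hHc hle hy hnorm happ P _ _ hP φ hφ
  exact sub_gen hBA hFR h2 hsq hL D hDc H hHc hle hy hnorm happ hP φ hφ

end Pool.Agent.V7H34.FP
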