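import Pool.Agent.V7H55.FP.Defs2

/-! FREE PRODUCTS, piece FR3: from the elements to the closures of the cyclic groups. -/

set_option autoImplicit false

namespace Pool.Agent.V7H34.FP

open Pool.Agent.V7H55.FP

/-- two homomorphisms with open kernels which agree at `σ` agree on the closure of `⟨σ⟩` -/
lemma agree {G P : Type} [Group G] [TopologicalSpace G] [IsTopologicalGroup G] [Group P]
    (ψ : G →* P) (hψ : IsOpen (ψ.ker : Set G)) (H : Subgroup G) (σ : G)
    (hH : H = (Subgroup.zpowers σ).topologicalClosure) (hσ : σ ∈ H) (φ : H →* P)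
    (hφ : IsOpen (φ.ker : Set H)) (h : ψ σ = φ ⟨σ, hσ⟩) (x : H) : ψ x = φ x := by
  set E : Subgroup H := (ψ.comp H.subtype).eqLocus φ with hE
  have hEo : IsOpen (E : Set H) := by
    have h1 : IsOpen (((ψ.comp H.subtype).ker ⊓ φ.ker : Subgroup H) : Set H) := by
      refine IsOpen.inter ?_ hφ
      exact hψ.preimage continuous_subtype_val
    refine Subgroup.isOpen_mono (fun y hy => ?_) h1
    have h2 : (ψ.comp H.subtype) y = 1 := hy.1
    have h3 : φ y = 1 := hy.2
    change (ψ.comp H.subtype) y = φ y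
    rw [h2, h3]
  have hEc : IsClosed (E : Set H) := Subgroup.isClosed_of_isOpen E hEo
  obtain ⟨C, hC, hC2⟩ := isClosed_induced_iff.1 hEc
  have hσE : (⟨σ, hσ⟩ : H) ∈ E := h
  have hsub : ((Subgroup.zpowers σ : Subgroup G) : Set G) ⊆ C := by
    rintro w ⟨m, rfl⟩
    have h4 : (⟨σ, hσ⟩ : H) ^ m ∈ (E : Set H) := E.zpow_mem hσE m
    rw [← hC2] at h4
    exact h4
  have hxC : (x : G) ∈ C := by
    have h5 : (x : G) ∈ (Subgroup.zpowers σ).topologicalClosure := hH ▸ x.2
    exact closure_minimal hsub hC h5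
  have hxE : x ∈ (E : Set H) := by
    rw [← hC2]
    exact hxC
  exact hxE

/-- **piece FR3** -/
theorem t_FR3 : S_FR3 := by
  intro G _ _ _ n r D σ U H hD hσ P _ _ hP φ hφ
  have hDle : ∀ i, D i ≤ H (Fin.castAdd r i) := fun i => (hD i).ge
  have hσm : ∀ j, σ j ∈ H (Fin.natAdd n j) := fun j => by
    rw [hσ j]
    exact Subgroup.le_topologicalClosure _ (Subgroup.mem_zpowers _)
  obtain ⟨ψ, ⟨ho, h1, h2⟩, huniq⟩ := U P hP
    (fun i => (φ (Fin.castAdd r i)).comp (Subgroup.inclusion (hDle i)))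
    (fun i => by
      have hc : Continuous (Subgroup.inclusion (hDle i)) :=
        Continuous.subtype_mk continuous_subtype_val _
      exact (hφ (Fin.castAdd r i)).preimage hc)
    (fun j => φ (Fin.natAdd n j) ⟨σ j, hσm j⟩)
  refine ⟨ψ, ⟨ho, ?_⟩, ?_⟩
  · intro i
    refine Fin.addCases (motive := fun i => ∀ x : H i, ψ (x : G) = φ i x)
      (fun i x => ?_) (fun j x => ?_) i
    · have hx : (x : G) ∈ D i := by
        rw [← hD i]
        exact x.2
      exact h1 i ⟨x, hx⟩
    · exact agree ψ ho _ (σ j) (hσ j) (hσm j) _ (hφ _) (h2 j) x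
  · rintro ψ' ⟨ho', h'⟩
    refine huniq ψ' ⟨ho', fun i x => ?_, fun j => ?_⟩
    · exact h' (Fin.castAdd r i) ⟨x, hDle i x.2⟩
    · exact h' (Fin.natAdd n j) ⟨σ j, hσm j⟩

end Pool.Agent.V7H34.FP
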