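import Mathlib
import Pool.Agent.V7H34.FP.SUBcore
import Pool.Agent.V7H55.FP.All
import Pool.Agent.V7H66.FP.FR

/-!
# Free products for `p = 2`: the subgroup generated by closed subgroups, the unconditional form
-/

set_option autoImplicit false

namespace Pool.Agent.V7H34.FP

open Pool.Agent.V7H55.FP

theorem t_SUB : S_SUB :=
  t_SUB' Pool.Agent.V7H88.FP.t_BA (Pool.Agent.V7H66.FP.t_FR Pool.Agent.V7H70.FP.t_KU all_LI)

end Pool.Agent.V7H34.FP
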