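import Pool.Agent.V7H55.FP.Defs

/-! FREE PRODUCTS, piece FR: the group is the free pro-2 product of the local groups. -/

set_option autoImplicit false

namespace Pool.Agent.V7H34.FP

open Pool.Agent.V7H55.FP

section grp

/-- in a group whose quotient by `V` is a finite 2-group a proper subgroup which contains `V` is in
a subgroup of index two -/
lemma ex_index_two {G : Type} [Group G] (V E : Subgroup G) [V.Normal] (hVE : V ≤ E) (hE : E ≠ ⊤)
    (k : ℕ) (hk : V.index = 2 ^ k) : ∃ M : Subgroup G, M.index = 2 ∧ E ≤ M := by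
  have hcard : Nat.card (G ⧸ V) = 2 ^ k := hk
  have hfin : Finite (G ⧸ V) := Nat.finite_of_card_ne_zero (by rw [hcard]; positivity)
  set π := QuotientGroup.mk' V with hπ
  have hsur : Function.Surjective π := QuotientGroup.mk'_surjective V
  have hker : π.ker ≤ E := by
    rw [hπ, QuotientGroup.ker_mk']
    exact hVE
  have hE' : E.map π ≠ ⊤ := by
    intro h
    apply hE
    rw [← Subgroup.comap_map_eq_self hker, h, Subgroup.comap_top]
  obtain ⟨a, ha, hEa⟩ := (Nat.dvd_prime_pow Nat.prime_two).1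
    (show Nat.card (E.map π) ∣ 2 ^ k by rw [← hcard]; exact Subgroup.card_subgroup_dvd_card _)
  have hak : a ≠ k := by
    rintro rfl
    exact hE' (Subgroup.eq_top_of_card_eq _ (by rw [hEa, hcard]))
  have hfact : Fact (Nat.Prime 2) := ⟨Nat.prime_two⟩
  obtain ⟨M', hM', hEM⟩ := Sylow.exists_subgroup_card_pow_prime_le (G := G ⧸ V) 2
    (n := a) (m := k - 1) (by rw [hcard]; exact pow_dvd_pow 2 (by omega)) (E.map π) hEa (by omega)
  refine ⟨M'.comap π, ?_, Subgroup.map_le_iff_le_comap.1 hEM⟩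
  rw [Subgroup.index_comap_of_surjective _ hsur]
  have h1 := Subgroup.card_mul_index M'
  rw [hM', hcard] at h1
  have h2 : 2 ^ k = 2 ^ (k - 1) * 2 := by
    rw [← pow_succ]
    congr 1
    omega
  rw [h2] at h1
  exact Nat.eq_of_mul_eq_mul_left (by positivity) h1

/-- a finite 2-group has a central element of order two -/
lemma exCen {P : Type} [Group P] [Finite P] {k : ℕ} (hP : Nat.card P = 2 ^ (k + 1)) :
    ∃ ζ : P, ζ ≠ 1 ∧ ζ * ζ = 1 ∧ ∀ x, ζ * x = x * ζ := by
  have hfact : Fact (Nat.Prime 2) := ⟨Nat.prime_two⟩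
  have hpg : IsPGroup 2 P := IsPGroup.of_card hP
  have hnt : Nontrivial P := by
    apply Finite.one_lt_card_iff_nontrivial.1
    rw [hP]
    exact Nat.one_lt_two_pow (by omega)
  have hc : Nontrivial (Subgroup.center P) := hpg.center_nontrivial
  obtain ⟨a, ha, hEa⟩ := (Nat.dvd_prime_pow Nat.prime_two).1
    (show Nat.card (Subgroup.center P) ∣ 2 ^ (k + 1) by
      rw [← hP]; exact Subgroup.card_subgroup_dvd_card _)
  have ha0 : a ≠ 0 := by
    rintro rfl
    have := Finite.one_lt_card_iff_nontrivial.2 hc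
    rw [hEa] at this
    norm_num at this
  obtain ⟨z, hz⟩ := exists_prime_orderOf_dvd_card' (G := Subgroup.center P) 2
    (by rw [hEa]; exact dvd_pow_self 2 ha0)
  refine ⟨z, ?_, ?_, ?_⟩
  · intro h
    have h1 : z = 1 := Subtype.ext h
    rw [h1, orderOf_one] at hz
    norm_num at hz
  · have h1 := pow_orderOf_eq_one z
    rw [hz, pow_two] at h1
    exact congrArg Subtype.val h1
  · intro x
    exact (Subgroup.mem_center_iff.1 z.2 x).symm

/-- the group with two elements generated by `ζ` -/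
def N2 {P : Type} [Group P] (ζ : P) (h : ζ * ζ = 1) : Subgroup P where
  carrier := {1, ζ}
  one_mem' := Or.inl rfl
  mul_mem' := by
    rintro a b (rfl | rfl) (rfl | rfl)
    · exact Or.inl (one_mul 1)
    · exact Or.inr (one_mul _)
    · exact Or.inr (mul_one _)
    · exact Or.inl h
  inv_mem' := by
    rintro a (rfl | rfl)
    · exact Or.inl inv_one
    · exact Or.inr (inv_eq_of_mul_eq_one_left h)

open Classical in
/-- the extension by one -/
noncomputable def ex1 {G P : Type} [Group G] [Group P] {D : Subgroup G} (φ : D →* P) (x : G) : P :=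
  if h : x ∈ D then φ ⟨x, h⟩ else 1

lemma ex1_mem {G P : Type} [Group G] [Group P] {D : Subgroup G} (φ : D →* P) {x : G}
    (h : x ∈ D) : ex1 φ x = φ ⟨x, h⟩ := dif_pos h

lemma ex1_mul {G P : Type} [Group G] [Group P] {D : Subgroup G} (φ : D →* P) {x y : G}
    (hx : x ∈ D) (hy : y ∈ D) : ex1 φ (x * y) = ex1 φ x * ex1 φ y := by
  rw [ex1_mem φ hx, ex1_mem φ hy, ex1_mem φ (D.mul_mem hx hy), ← map_mul]
  rfl

lemma mem_stab {n : ℕ} {G : Type} [Group G] (D : Fin n → Subgroup G) (i : Fin n) (g x : G) :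
    x ∈ MulAction.stabilizer G (⟨i, (g : G ⧸ D i)⟩ : Σ i : Fin n, G ⧸ D i) ↔
      g⁻¹ * x * g ∈ D i := by
  rw [MulAction.mem_stabilizer_iff]
  have h1 : x • (⟨i, (g : G ⧸ D i)⟩ : Σ i : Fin n, G ⧸ D i) = ⟨i, ((x * g : G) : G ⧸ D i)⟩ := rfl
  rw [h1]
  constructor
  · intro h
    have h2 : ((x * g : G) : G ⧸ D i) = (g : G ⧸ D i) := eq_of_heq (Sigma.mk.inj h).2
    have h3 := QuotientGroup.eq.1 h2.symm
    rwa [← mul_assoc] at h3
  · intro h
    have h2 : ((x * g : G) : G ⧸ D i) = (g : G ⧸ D i) := by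
      apply Eq.symm
      apply QuotientGroup.eq.2
      rwa [← mul_assoc]
    rw [h2]

end grp

section gal

variable {F K : Type} [Field F] [Field K] [Algebra F K]

/-- an open subgroup on which a homomorphism with open kernel is trivial -/
lemma exW {D : Subgroup (K ≃ₐ[F] K)} {P : Type} [Group P] (φ : D →* P)
    (h : IsOpen (φ.ker : Set D)) :
    ∃ W : Subgroup (K ≃ₐ[F] K), IsOpen (W : Set (K ≃ₐ[F] K)) ∧
      ∀ w : K ≃ₐ[F] K, w ∈ D → w ∈ W → ex1 φ w = 1 := by
  obtain ⟨O, hO, hO2⟩ := isOpen_induced_iff.1 h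
  have h1 : (1 : K ≃ₐ[F] K) ∈ O := by
    have h4 : (1 : D) ∈ (Subtype.val ⁻¹' O : Set D) := by
      rw [hO2]
      exact φ.ker.one_mem
    exact h4
  have h2 : O ∈ nhds (1 : K ≃ₐ[F] K) := hO.mem_nhds h1
  obtain ⟨E, hE, hE2⟩ := (krullTopology_mem_nhds_one_iff F K O).1 h2
  refine ⟨E.fixingSubgroup, E.fixingSubgroup_isOpen, fun w hw hwE => ?_⟩
  have h3 : (⟨w, hw⟩ : D) ∈ (Subtype.val ⁻¹' O : Set D) := hE2 hwE
  rw [hO2] at h3
  rw [ex1_mem φ hw]
  exact h3

lemma conjOpen (W : Subgroup (K ≃ₐ[F] K)) (hW : IsOpen (W : Set (K ≃ₐ[F] K))) (g : K ≃ₐ[F] K) :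
    ∃ W' : Subgroup (K ≃ₐ[F] K), IsOpen (W' : Set (K ≃ₐ[F] K)) ∧
      ∀ x ∈ W', g⁻¹ * x * g ∈ W := by
  have hc : Continuous (fun x : K ≃ₐ[F] K => g⁻¹ * x * g) := by fun_prop
  refine ⟨W.comap (MulAut.conj g⁻¹).toMonoidHom, ?_, ?_⟩
  · have h := hW.preimage hc
    convert h using 1
    ext x
    simp
  · intro x hx
    have h1 : (MulAut.conj g⁻¹) x ∈ W := hx
    rwa [MulAut.conj_apply, inv_inv] at h1

/-- the uniqueness -/
theorem uniq (hKU : S_KU) [IsGalois F K] (h2 : (2 : K) ≠ 0)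
    (hV : ∀ V : Subgroup (K ≃ₐ[F] K), V.Normal → IsOpen (V : Set (K ≃ₐ[F] K)) →
      ∃ k : ℕ, V.index = 2 ^ k)
    {n : ℕ} (D : Fin n → Subgroup (K ≃ₐ[F] K))
    (hinj : ∀ y : K, Fx (⊤ : Subgroup (K ≃ₐ[F] K)) (y ^ 2) → (∀ i, Fx (D i) y) →
      Fx (⊤ : Subgroup (K ≃ₐ[F] K)) y)
    {P : Type} [Group P] (ψ ψ' : (K ≃ₐ[F] K) →* P) (h : IsOpen (ψ.ker : Set (K ≃ₐ[F] K)))
    (h' : IsOpen (ψ'.ker : Set (K ≃ₐ[F] K))) (heq : ∀ i, ∀ x ∈ D i, ψ x = ψ' x) : ψ = ψ' := by
  classical
  by_contra hne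
  set E := ψ.eqLocus ψ' with hE
  have hEtop : E ≠ ⊤ := by
    intro hh
    apply hne
    ext x
    have : x ∈ E := by
      rw [hh]
      trivial
    exact this
  set V := ψ.ker ⊓ ψ'.ker with hVdef
  have hVn : V.Normal := inferInstance
  have hVo : IsOpen (V : Set (K ≃ₐ[F] K)) := h.inter h'
  have hVE : V ≤ E := by
    intro x hx
    have h1 : ψ x = 1 := hx.1
    have h3 : ψ' x = 1 := hx.2
    change ψ x = ψ' x
    rw [h1, h3]
  obtain ⟨k, hk⟩ := hV V hVn hVo
  obtain ⟨M, hM, hEM⟩ := ex_index_two V E hVE hEtop k hk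
  have hMo : IsOpen (M : Set (K ≃ₐ[F] K)) := Subgroup.isOpen_mono (hVE.trans hEM) hVo
  have hmul : ∀ a b : K ≃ₐ[F] K, a * b ∈ M ↔ (a ∈ M ↔ b ∈ M) := fun a b =>
    Subgroup.mul_mem_iff_of_index_two hM
  obtain ⟨γ, hγ0, hγ2, hγ⟩ := hKU F K h2 ⊤ isClosed_univ (fun g => if g ∈ M then 0 else 1)
    ⟨M, hMo, fun a _ b _ hb => by
      have : a * b ∈ M ↔ a ∈ M := M.mul_mem_cancel_right hb
      simp only [this]⟩
    (fun a _ b _ => by
      have := hmul a b
      by_cases ha : a ∈ M <;> by_cases hb : b ∈ M <;> simp [this, ha, hb]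
      decide)
  have hfix : Fx (⊤ : Subgroup (K ≃ₐ[F] K)) γ := by
    apply hinj γ hγ2
    intro i d hd
    have hdM : d ∈ M := hEM (show ψ d = ψ' d from heq i d hd)
    have h1 := hγ d trivial
    simp only [if_pos hdM] at h1
    unfold sg at h1
    by_contra hcon
    rw [if_neg hcon] at h1
    exact absurd h1 (by decide)
  have hMtop : M = ⊤ := by
    rw [eq_top_iff]
    intro x _
    by_contra hx
    have h1 := hγ x trivial
    simp only [if_neg hx] at h1
    unfold sg at h1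
    rw [if_pos (hfix x trivial)] at h1
    exact absurd h1 (by decide)
  rw [hMtop, Subgroup.index_top] at hM
  norm_num at hM

/-- the action on a square root -/
lemma act (δ : K) (U : Subgroup (K ≃ₐ[F] K)) (hδ : Fx U (δ ^ 2)) {g : K ≃ₐ[F] K} (hg : g ∈ U) :
    g • δ = δ ∨ g • δ = -δ := by
  have h1 : (g • δ) ^ 2 = δ ^ 2 := by
    rw [← smul_pow']
    exact hδ g hg
  exact sq_eq_sq_iff_eq_or_eq_neg.1 h1

lemma sg_zero {δ : K} {g : K ≃ₐ[F] K} (h : sg δ g = 0) : g • δ = δ := by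
  unfold sg at h
  by_contra hcon
  rw [if_neg hcon] at h
  exact absurd h (by decide)

/-- the existence -/
theorem exis (hLI : S_LI) (hKU : S_KU) [IsGalois F K] (h2 : (2 : K) ≠ 0)
    (hsq : ∀ x : K, ∃ y, y ^ 2 = x)
    (hV : ∀ V : Subgroup (K ≃ₐ[F] K), V.Normal → IsOpen (V : Set (K ≃ₐ[F] K)) →
      ∃ k : ℕ, V.index = 2 ^ k)
    {n : ℕ} (D : Fin n → Subgroup (K ≃ₐ[F] K)) (hD : ∀ i, IsClosed (D i : Set (K ≃ₐ[F] K)))
    (hAx : Ax K (Σ i : Fin n, (K ≃ₐ[F] K) ⧸ D i) (⊤ : Subgroup (K ≃ₐ[F] K))) :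
    ∀ (k : ℕ) (P : Type) [Group P] [Finite P], Nat.card P = 2 ^ k →
    ∀ φ : (i : Fin n) → (D i →* P), (∀ i, IsOpen ((φ i).ker : Set (D i))) →
      ∃ ψ : (K ≃ₐ[F] K) →* P, IsOpen (ψ.ker : Set (K ≃ₐ[F] K)) ∧
        ∀ i, ∀ x : D i, ψ (x : K ≃ₐ[F] K) = φ i x := by
  classical
  intro k
  induction k with
  | zero =>
    intro P _ _ hP φ hφ
    have hs : Subsingleton P := (Nat.card_eq_one_iff_unique.1 (by simpa using hP)).1
    refine ⟨1, ?_, fun i x => Subsingleton.elim _ _⟩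
    have h1 : ((1 : (K ≃ₐ[F] K) →* P).ker : Set (K ≃ₐ[F] K)) = Set.univ := by
      ext x
      simp
    rw [h1]
    exact isOpen_univ
  | succ k ih =>
    intro P _ _ hP φ hφ
    obtain ⟨ζ, hζ1, hζ2, hζ3⟩ := exCen hP
    have hN : (N2 ζ hζ2).Normal := by
      refine ⟨fun x hx g => ?_⟩
      rcases hx with hx | hx
      · left
        rw [hx]
        group
      · right
        have hx' : x = ζ := hx
        rw [hx', ← hζ3 g, mul_assoc, mul_inv_cancel, mul_one]
        rfl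
    have hcN : Nat.card (N2 ζ hζ2) = 2 := by
      have h3 : ((N2 ζ hζ2 : Subgroup P) : Set P) = {1, ζ} := rfl
      have h4 : Nat.card ((N2 ζ hζ2 : Subgroup P) : Set P) = 2 := by
        rw [h3, Nat.card_coe_set_eq, Set.ncard_pair (Ne.symm hζ1)]
      exact h4
    have hcQ : Nat.card (P ⧸ N2 ζ hζ2) = 2 ^ k := by
      have h3 := Subgroup.card_eq_card_quotient_mul_card_subgroup (N2 ζ hζ2)
      rw [hP, hcN, pow_succ] at h3
      exact (Nat.eq_of_mul_eq_mul_right (by norm_num) h3).symm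
    set π := QuotientGroup.mk' (N2 ζ hζ2) with hπ
    have hcen : Cen π ζ := by
      refine ⟨QuotientGroup.mk'_surjective _, hζ1, hζ2, hζ3, fun x => ?_⟩
      exact QuotientGroup.eq_one_iff x
    obtain ⟨ψQ, hψo, hψ⟩ := ih (P ⧸ N2 ζ hζ2) hcQ (fun i => π.comp (φ i)) (fun i => by
      refine Subgroup.isOpen_mono (fun x hx => ?_) (hφ i)
      have hx' : φ i x = 1 := hx
      change π (φ i x) = 1
      rw [hx', map_one])
    have hψ1 : ∀ i, ∀ x ∈ D i, ψQ x = π (ex1 (φ i) x) := by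
      intro i x hx
      rw [ex1_mem _ hx]
      exact hψ i ⟨x, hx⟩
    choose W hWo hW using fun i => exW (φ i) (hφ i)
    -- the lift
    obtain ⟨θ, hθo, hθ⟩ := hLI F K h2 hsq hV (Σ i : Fin n, (K ≃ₐ[F] K) ⧸ D i)
      (by
        rintro ⟨i, x⟩
        induction x using QuotientGroup.induction_on with
        | H g =>
          have hc : Continuous (fun x : K ≃ₐ[F] K => g⁻¹ * x * g) := by fun_prop
          have h3 := (hD i).preimage hc
          convert h3 using 1
          ext x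
          exact mem_stab D i g x)
      hAx P (P ⧸ N2 ζ hζ2) π ζ hcen ψQ hψo
      (by
        rintro ⟨i, x⟩
        induction x using QuotientGroup.induction_on with
        | H g =>
          obtain ⟨p, hp⟩ := QuotientGroup.mk'_surjective (N2 ζ hζ2) (ψQ g)
          obtain ⟨W', hWo', hW'⟩ := conjOpen (W i) (hWo i) g
          refine ⟨fun x => p * ex1 (φ i) (g⁻¹ * x * g) * p⁻¹, ⟨W', hWo', ?_⟩, ?_, ?_⟩
          · intro a ha w hw hwW
            have ha' := (mem_stab D i g a).1 ha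
            have hw' := (mem_stab D i g w).1 hw
            have e1 : g⁻¹ * (a * w) * g = (g⁻¹ * a * g) * (g⁻¹ * w * g) := by group
            change p * ex1 (φ i) (g⁻¹ * (a * w) * g) * p⁻¹ = p * ex1 (φ i) (g⁻¹ * a * g) * p⁻¹
            rw [e1, ex1_mul _ ha' hw', hW i _ hw' (hW' w hwW), mul_one]
          · intro a ha
            have ha' := (mem_stab D i g a).1 ha
            change π (p * ex1 (φ i) (g⁻¹ * a * g) * p⁻¹) = ψQ a
            rw [map_mul, map_mul, map_inv, ← hψ1 i _ ha', map_mul, map_mul, map_inv]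
            rw [hπ, hp]
            group
          · intro a ha b hb
            have ha' := (mem_stab D i g a).1 ha
            have hb' := (mem_stab D i g b).1 hb
            have e1 : g⁻¹ * (a * b) * g = (g⁻¹ * a * g) * (g⁻¹ * b * g) := by group
            change p * ex1 (φ i) (g⁻¹ * (a * b) * g) * p⁻¹ =
              (p * ex1 (φ i) (g⁻¹ * a * g) * p⁻¹) * (p * ex1 (φ i) (g⁻¹ * b * g) * p⁻¹)
            rw [e1, ex1_mul _ ha' hb']
            group)
    -- the difference on `D i`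
    have hdiff : ∀ i, ∀ x ∈ D i, θ x = ex1 (φ i) x ∨ θ x = ex1 (φ i) x * ζ := by
      intro i x hx
      have h3 : π ((ex1 (φ i) x)⁻¹ * θ x) = 1 := by
        rw [map_mul, map_inv, ← hψ1 i x hx, hθ x, inv_mul_cancel]
      rcases (hcen.2.2.2.2 _).1 h3 with h4 | h4
      · left
        exact (inv_mul_eq_one.1 h4).symm
      · right
        rw [← h4, mul_inv_cancel_left]
    have hζne : ∀ y : P, y * ζ ≠ y := fun y h3 => hζ1 (mul_eq_left.1 h3)
    have hgam : ∀ i, ∃ γ : K, γ ≠ 0 ∧ Fx (D i) (γ ^ 2) ∧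
        ∀ h ∈ D i, (if θ h = ex1 (φ i) h then (0 : ZMod 2) else 1) = sg γ h := by
      intro i
      refine hKU F K h2 (D i) (hD i) (fun h => if θ h = ex1 (φ i) h then (0 : ZMod 2) else 1) ?_ ?_
      · refine ⟨θ.ker ⊓ W i, hθo.inter (hWo i), ?_⟩
        intro a ha w hw hwW
        have h3 : θ (a * w) = θ a := by
          have h5 : θ w = 1 := hwW.1
          rw [map_mul, h5, mul_one]
        have h4 : ex1 (φ i) (a * w) = ex1 (φ i) a := by
          rw [ex1_mul _ ha hw, hW i w hw hwW.2, mul_one]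
        simp only [h3, h4]
      · intro a ha b hb
        simp only [map_mul, ex1_mul _ ha hb]
        rcases hdiff i a ha with h3 | h3 <;> rcases hdiff i b hb with h4 | h4
        · simp [h3, h4]
        · have h5 : ex1 (φ i) a * (ex1 (φ i) b * ζ) ≠ ex1 (φ i) a * ex1 (φ i) b := by
            rw [← mul_assoc]
            exact hζne _
          simp [h3, h4, h5, hζne]
        · have h5 : ex1 (φ i) a * ζ * ex1 (φ i) b ≠ ex1 (φ i) a * ex1 (φ i) b := by
            rw [mul_assoc, hζ3, ← mul_assoc]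
            exact hζne _
          simp [h3, h4, h5, hζne]
        · have h5 : ex1 (φ i) a * ζ * (ex1 (φ i) b * ζ) = ex1 (φ i) a * ex1 (φ i) b := by
            rw [mul_assoc, ← mul_assoc ζ, hζ3, mul_assoc, hζ2, mul_one]
          simp only [h3, h4, if_pos h5, if_neg (hζne _)]
          decide
    choose γ hγ0 hγ2 hγ using hgam
    -- the approximation
    have hzwd : ∀ (i : Fin n) (a b : K ≃ₐ[F] K), a⁻¹ * b ∈ D i → a • (γ i) ^ 2 = b • (γ i) ^ 2 := by
      intro i a b hab
      have h3 := hγ2 i _ hab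
      have h4 : b • (γ i) ^ 2 = a • ((a⁻¹ * b) • (γ i) ^ 2) := by
        rw [smul_smul, mul_inv_cancel_left]
      rw [h4, h3]
    obtain ⟨z0, hz0, hz00, r, hrE, hr⟩ := hAx.h2
      (fun s => Quotient.liftOn' s.2 (fun g => g • (γ s.1) ^ 2) (fun a b hab =>
        hzwd s.1 a b (QuotientGroup.leftRel_apply.1 hab)))
      (by
        rintro u - ⟨i, x⟩
        induction x using QuotientGroup.induction_on with
        | H g =>
          change (u * g) • (γ i) ^ 2 = u • (g • (γ i) ^ 2)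
          rw [mul_smul])
      (by
        rintro ⟨i, x⟩
        induction x using QuotientGroup.induction_on with
        | H g =>
          change g • (γ i) ^ 2 ≠ 0
          rw [Ne, smul_eq_zero_iff_eq]
          exact pow_ne_zero 2 (hγ0 i))
    obtain ⟨δ, hδ⟩ := hsq z0
    have hδ0 : δ ≠ 0 := by
      rintro rfl
      apply hz00
      rw [← hδ]
      ring
    have hδ2 : Fx (⊤ : Subgroup (K ≃ₐ[F] K)) (δ ^ 2) := by
      rw [hδ]
      exact hz0
    have hact : ∀ g : K ≃ₐ[F] K, g • δ = δ ∨ g • δ = -δ := fun g => act δ ⊤ hδ2 trivial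
    have hδn : -δ ≠ δ := by
      intro h3
      have h4 : (2 : K) * δ = 0 := by
        linear_combination -h3
      exact (mul_ne_zero h2 hδ0) h4
    -- compare `γ i` and `δ`
    have hcomp : ∀ i, ∀ x ∈ D i, (θ x = ex1 (φ i) x ↔ x • δ = δ) := by
      intro i x hx
      have h3 := hγ i x hx
      obtain ⟨hr0, hr1⟩ := hr ⟨i, ((1 : K ≃ₐ[F] K) : (K ≃ₐ[F] K) ⧸ D i)⟩
      set ρ := r ⟨i, ((1 : K ≃ₐ[F] K) : (K ≃ₐ[F] K) ⧸ D i)⟩ with hρ
      have hρx : x • ρ = ρ := by
        rw [hρ, ← hrE x trivial]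
        congr 1
        exact (mem_stab D i 1 x).2 (by simpa using hx)
      have hr2 : (γ i) ^ 2 = (δ * ρ) ^ 2 := by
        have h4 : (1 : K ≃ₐ[F] K) • (γ i) ^ 2 = z0 * ρ ^ 2 := hr1
        rw [one_smul] at h4
        rw [h4, mul_pow, hδ]
      have hiff : x • (γ i) = γ i ↔ x • δ = δ := by
        have hkey : ∀ σ : K, σ = δ * ρ ∨ σ = -(δ * ρ) → (x • σ = σ ↔ x • δ = δ) := by
          rintro σ (rfl | rfl)
          · rw [smul_mul', hρx]
            exact mul_left_inj' hr0
          · rw [smul_neg, neg_inj, smul_mul', hρx]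
            exact mul_left_inj' hr0
        exact hkey _ (sq_eq_sq_iff_eq_or_eq_neg.1 hr2)
      rw [← hiff]
      unfold sg at h3
      by_cases h4 : x • (γ i) = γ i
      · rw [if_pos h4] at h3
        refine ⟨fun _ => h4, fun _ => ?_⟩
        by_contra h5
        rw [if_neg h5] at h3
        exact absurd h3 (by decide)
      · rw [if_neg h4] at h3
        refine ⟨fun h5 => ?_, fun h5 => absurd h5 h4⟩
        rw [if_pos h5] at h3
        exact absurd h3 (by decide)
    -- the homomorphism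
    have hmulψ : ∀ g h : K ≃ₐ[F] K, (θ (g * h) * if (g * h) • δ = δ then 1 else ζ) =
        (θ g * if g • δ = δ then 1 else ζ) * (θ h * if h • δ = δ then 1 else ζ) := by
      intro g h
      rw [map_mul, mul_smul]
      rcases hact h with h3 | h3
      · rw [h3, if_pos rfl, mul_one]
        by_cases h4 : g • δ = δ
        · rw [if_pos h4, mul_one, mul_one]
        · rw [if_neg h4, mul_assoc, mul_assoc, hζ3]
      · rw [h3, smul_neg]
        rcases hact g with h4 | h4
        · rw [h4, if_neg hδn, if_pos rfl, mul_one, mul_assoc]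
        · rw [h4, neg_neg, if_pos rfl, if_neg hδn, mul_one, mul_assoc, ← mul_assoc ζ, hζ3,
            mul_assoc, hζ2, mul_one]
    refine ⟨MonoidHom.mk' (fun g => θ g * if g • δ = δ then 1 else ζ) hmulψ, ?_, ?_⟩
    · have hfd : FiniteDimensional F (IntermediateField.adjoin F {δ}) :=
        IntermediateField.adjoin.finiteDimensional (Algebra.IsIntegral.isIntegral δ)
      have ho := (IntermediateField.adjoin F {δ}).fixingSubgroup_isOpen
      refine Subgroup.isOpen_mono (H₁ := θ.ker ⊓ (IntermediateField.adjoin F {δ}).fixingSubgroup)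
        (fun g hg => ?_) (hθo.inter ho)
      have h3 : θ g = 1 := hg.1
      have h4 : g • δ = δ := by
        have h5 := (IntermediateField.mem_fixingSubgroup_iff _ g).1 hg.2 δ
          (IntermediateField.mem_adjoin_simple_self F δ)
        exact h5
      change (θ g * if g • δ = δ then 1 else ζ) = 1
      rw [if_pos h4, h3, mul_one]
    · rintro i ⟨x, hx⟩
      change (θ x * if x • δ = δ then 1 else ζ) = φ i ⟨x, hx⟩
      rw [← ex1_mem (φ i) hx]
      by_cases h3 : x • δ = δ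
      · rw [if_pos h3, mul_one]
        exact (hcomp i x hx).2 h3
      · rw [if_neg h3]
        rcases hdiff i x hx with h4 | h4
        · exact absurd ((hcomp i x hx).1 h4) h3
        · rw [h4, mul_assoc, hζ2, mul_one]

end gal

/-- **piece FR** -/
theorem t_FR (hLI : S_LI) (hKU : S_KU) : S_FR := by
  intro F K _ _ _ _ h2 hsq hV n D hD hAx hinj P _ _ ⟨k, hk⟩ φ hφ
  obtain ⟨ψ, h1, h3⟩ := exis hLI hKU h2 hsq hV D hD hAx k P hk φ hφ
  refine ⟨ψ, ⟨h1, h3⟩, ?_⟩
  rintro ψ' ⟨h4, h5⟩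
  exact uniq hKU h2 hV D hinj ψ' ψ h4 h1 (fun i x hx => by
    have e1 := h5 i ⟨x, hx⟩
    have e2 := h3 i ⟨x, hx⟩
    exact e1.trans e2.symm)

end Pool.Agent.V7H34.FP
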